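import Pool.Agent.N71.EX.Stm
import Pool.Agent.N38.BI.CNT

/-! Project EX (helper71), leaf FF (helper910): many ideals which are products of two small ones. -/

set_option autoImplicit false

namespace Pool.Agent.N910.EX

open Finset Filter NumberField Pool.Agent.H38R2.CG Pool.Agent.N71.EX
open scoped Classical

theorem chi_le (D : ℤ) (n : ℕ) : |(chi D n : ℝ)| ≤ 1 := by
  have h1 : |(chi2 D : ℤ)| ≤ 1 := by
    unfold chi2
    split_ifs <;> simp
  have h2 : |jacobiSym D (n / 2 ^ padicValNat 2 n)| ≤ 1 := by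
    rcases jacobiSym.trichotomy D (n / 2 ^ padicValNat 2 n) with h | h | h <;> rw [h] <;> simp
  have h3 : |chi D n| ≤ 1 := by
    unfold chi
    rw [abs_mul, abs_pow]
    calc |chi2 D| ^ padicValNat 2 n * |jacobiSym D (n / 2 ^ padicValNat 2 n)|
        ≤ 1 * 1 := by
          apply mul_le_mul (pow_le_one₀ (abs_nonneg _) h1) h2 (abs_nonneg _) (by norm_num)
      _ = 1 := by norm_num
  exact_mod_cast h3

theorem fac_pos (D p : ℕ) (hp : p.Prime) : 0 < (1 - (chi D p : ℝ) / p) := by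
  have h1 := abs_le.1 (chi_le D p)
  have h2 : (2 : ℝ) ≤ p := by exact_mod_cast hp.two_le
  have h3 : (chi D p : ℝ) / p ≤ 1 / p := div_le_div_of_nonneg_right h1.2 (by linarith)
  have h4 : (1 : ℝ) / p ≤ 1 / 2 := one_div_le_one_div_of_le (by norm_num) h2
  linarith

theorem VV_pos (D z : ℕ) : 0 < VV D z := by
  unfold VV
  refine Finset.prod_pos fun p hp => ?_
  have hp' := (Finset.mem_filter.1 hp).2
  have h2 : (2 : ℝ) ≤ p := by exact_mod_cast hp'.two_le
  have h4 : (1 : ℝ) / p ≤ 1 / 2 := one_div_le_one_div_of_le (by norm_num) h2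
  exact mul_pos (by linarith) (fac_pos D p hp')

theorem PE_pos (D z : ℕ) : 0 < PE D z := by
  unfold PE
  exact Finset.prod_pos fun p hp => inv_pos.2 (fac_pos D p (Finset.mem_filter.1 hp).2)

theorem rr_nonneg (D : ℕ) (hD : IsFund D) (n : ℕ) (hn : 1 ≤ n) : 0 ≤ rr D n :=
  Pool.Agent.N38.BI.div_nonneg' D hD n hn

/-- The largeness conditions. -/
theorem ev (a : ℝ) (ha : 0 < a) : ∃ D₀ : ℕ, ∀ D : ℕ, D₀ ≤ D → 17 ≤ (D : ℝ) ^ a := by
  have t1 : Filter.Tendsto (fun D : ℕ => (D : ℝ) ^ a) Filter.atTop Filter.atTop :=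
    (tendsto_rpow_atTop ha).comp tendsto_natCast_atTop_atTop
  exact Filter.eventually_atTop.1 (t1.eventually_ge_atTop 17)

theorem t_FF (hFL : E_FL) (hBLK : E_BLK) (hSMO : E_SMO) (hMER : E_MER) (hIDL : E_IDL)
    (hSIE : Pool.Agent.N71.BI.E_SIE) : E_FF := by
  intro η hη hη1
  obtain ⟨δ₀, hδ₀, hFL⟩ := hFL (η / 2) (by positivity)
  obtain ⟨A, hSMO⟩ := hSMO
  obtain ⟨cM, hcM, hMER⟩ := hMER
  obtain ⟨cS, hcS, hSIE⟩ := hSIE 1 one_pos
  obtain ⟨δ, hδ⟩ : ∃ δ : ℝ, δ = min δ₀ (η / (2 * (A + 1))) := ⟨_, rfl⟩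
  have hA0 : (0 : ℝ) ≤ A := Nat.cast_nonneg _
  have hδ0 : 0 < δ := by rw [hδ]; exact lt_min hδ₀ (by positivity)
  have hδ1 : δ ≤ δ₀ := by rw [hδ]; exact min_le_left _ _
  have hδ2 : δ * A ≤ η := by
    have h1 : δ ≤ η / (2 * (A + 1)) := by rw [hδ]; exact min_le_right _ _
    rw [le_div_iff₀ (by positivity)] at h1
    nlinarith
  obtain ⟨D₁, hFL⟩ := hFL δ hδ0 hδ1
  obtain ⟨D₂, hD₂⟩ := ev (η / 2) (by positivity)
  obtain ⟨k, hk⟩ : ∃ k : ℕ, k = ⌈4 / δ⌉₊ := ⟨_, rfl⟩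
  have hk1 : 4 / δ ≤ k := by rw [hk]; exact Nat.le_ceil _
  refine ⟨η * cM / (512 * 2 ^ k), max D₁ D₂, by positivity, fun K _ _ D hD hF hfin hdisc => ?_⟩
  obtain ⟨z, hz2, hzl, hzu, hR⟩ := hFL D ((le_max_left _ _).trans hD) hF
  have hbig := hD₂ D ((le_max_right _ _).trans hD)
  have hD1n : 1 < D := hF.1
  have hD1 : (1 : ℝ) < D := by exact_mod_cast hD1n
  have hD0 : (0 : ℝ) < D := by linarith
  have hDl : (1 : ℝ) ≤ D := hD1.le
  have hL : 0 < Lone D := lt_of_lt_of_le (by positivity) (hSIE D hF)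
  have hV := VV_pos D z
  have hP := PE_pos D D
  -- powers of `D`
  obtain ⟨E, hE⟩ : ∃ E : ℝ, E = (D : ℝ) ^ (η / 2) := ⟨_, rfl⟩
  rw [← hE] at hbig
  obtain ⟨q, hq⟩ : ∃ q : ℝ, q = (D : ℝ) ^ (1 / 4 : ℝ) := ⟨_, rfl⟩
  have hq1 : 1 ≤ q := by rw [hq]; exact Real.one_le_rpow hDl (by norm_num)
  have hE0 : 0 < E := by linarith
  have hq0 : 0 < q := by linarith
  have p1 : (D : ℝ) ^ η = E ^ 2 := by
    rw [hE, ← Real.rpow_natCast, ← Real.rpow_mul hD0.le]
    congr 1
    push_cast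
    ring
  have p2 : (D : ℝ) ^ (1 / 4 + η / 2) = q * E := by
    rw [hE, hq, ← Real.rpow_add hD0]
  have p3 : (D : ℝ) ^ (1 / 4 + η) = q * E ^ 2 := by
    rw [← p1, hq, ← Real.rpow_add hD0]
  have p4 : (D : ℝ) ^ (1 / 4 + 2 * η) = q * E ^ 4 := by
    rw [hE, hq, ← Real.rpow_natCast, ← Real.rpow_mul hD0.le, ← Real.rpow_add hD0]
    congr 1
    push_cast
    ring
  have p5 : (D : ℝ) ^ (1 / 4 + 3 * η) = q * E ^ 6 := by
    rw [hE, hq, ← Real.rpow_natCast, ← Real.rpow_mul hD0.le, ← Real.rpow_add hD0]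
    congr 1
    push_cast
    ring
  have p6 : (D : ℝ) ^ (1 / 2 + 4 * η) = q ^ 2 * E ^ 8 := by
    rw [hE, hq, ← Real.rpow_natCast, ← Real.rpow_natCast, ← Real.rpow_mul hD0.le, ← Real.rpow_mul hD0.le,
      ← Real.rpow_add hD0]
    congr 1
    push_cast
    ring
  have p7 : q ^ 2 * E ^ 8 ≤ D := by
    rw [← p6]
    calc (D : ℝ) ^ (1 / 2 + 4 * η) ≤ (D : ℝ) ^ (1 : ℝ) :=
          Real.rpow_le_rpow_of_exponent_le hDl (by linarith)
      _ = D := Real.rpow_one _
  have hE2 : (17 : ℝ) * E ≤ E ^ 2 := by nlinarith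
  have hE2' : (17 : ℝ) ≤ E ^ 2 := by nlinarith
  have hE4 : (17 : ℝ) * E ^ 2 ≤ E ^ 4 := by nlinarith
  have hE6 : 0 < q * E ^ 6 := by positivity
  -- the parameters
  obtain ⟨x₁, hx₁⟩ : ∃ x₁ : ℕ, x₁ = ⌈(D : ℝ) ^ (1 / 4 + η)⌉₊ := ⟨_, rfl⟩
  obtain ⟨x₂, hx₂⟩ : ∃ x₂ : ℕ, x₂ = ⌊(D : ℝ) ^ (1 / 4 + 2 * η)⌋₊ := ⟨_, rfl⟩
  obtain ⟨S, hS⟩ : ∃ S : ℕ, S = ⌊(D : ℝ) ^ η⌋₊ := ⟨_, rfl⟩
  obtain ⟨X, hX⟩ : ∃ X : ℕ, X = ⌊(D : ℝ) ^ (1 / 2 + 4 * η)⌋₊ := ⟨_, rfl⟩
  have a1 : q * E ^ 2 ≤ x₁ := by rw [hx₁, ← p3]; exact Nat.le_ceil _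
  have a2 : (x₁ : ℝ) < q * E ^ 2 + 1 := by
    rw [hx₁, ← p3]; exact Nat.ceil_lt_add_one (by positivity)
  have a3 : (x₂ : ℝ) ≤ q * E ^ 4 := by rw [hx₂, ← p4]; exact Nat.floor_le (by positivity)
  have a4 : q * E ^ 4 < x₂ + 1 := by rw [hx₂, ← p4]; exact Nat.lt_floor_add_one _
  have a5 : (S : ℝ) ≤ E ^ 2 := by rw [hS, ← p1]; exact Nat.floor_le (by positivity)
  have a6 : (X : ℝ) ≤ q ^ 2 * E ^ 8 := by rw [hX, ← p6]; exact Nat.floor_le (by positivity)
  have a7 : q ^ 2 * E ^ 8 < X + 1 := by rw [hX, ← p6]; exact Nat.lt_floor_add_one _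
  have b1 : (17 : ℝ) ≤ q * E ^ 2 := by nlinarith
  have b2 : 17 * (q * E ^ 2) ≤ q * E ^ 4 := by nlinarith
  have b3 : 2 ≤ q ^ 2 * E ^ 8 := by
    have h1 : (1 : ℝ) ≤ q ^ 2 := one_le_pow₀ hq1
    have h2 : (17 : ℝ) ^ 8 ≤ E ^ 8 := pow_le_pow_left₀ (by norm_num) hbig 8
    nlinarith
  have hx1pos : 1 ≤ x₁ := by
    have : (0 : ℝ) < x₁ := by linarith
    exact_mod_cast this
  have h8 : 8 * x₁ ≤ x₂ := by
    have : (8 : ℝ) * x₁ ≤ x₂ := by linarith
    exact_mod_cast this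
  have hzA : z ^ A ≤ S := by
    rw [hS]
    refine Nat.le_floor ?_
    push_cast
    calc (z : ℝ) ^ A ≤ ((D : ℝ) ^ δ) ^ A := pow_le_pow_left₀ (Nat.cast_nonneg _) hzu A
      _ = (D : ℝ) ^ (δ * A) := by rw [← Real.rpow_natCast, ← Real.rpow_mul hD0.le]
      _ ≤ (D : ℝ) ^ η := Real.rpow_le_rpow_of_exponent_le hDl hδ2
  have hXz : X < z ^ (k + 1) := by
    have h1 : (X : ℝ) < (z : ℝ) ^ (k + 1) := by
      calc (X : ℝ) ≤ (D : ℝ) ^ (1 / 2 + 4 * η) := by rw [p6]; exact a6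
        _ < (D : ℝ) ^ (2 : ℝ) := Real.rpow_lt_rpow_of_exponent_lt hD1 (by linarith)
        _ ≤ (D : ℝ) ^ (δ / 2 * ((k + 1 : ℕ) : ℝ)) := by
            apply Real.rpow_le_rpow_of_exponent_le hDl
            rw [div_le_iff₀ hδ0] at hk1
            push_cast
            nlinarith
        _ = ((D : ℝ) ^ (δ / 2)) ^ (k + 1) := by
            rw [← Real.rpow_natCast ((D : ℝ) ^ (δ / 2)), ← Real.rpow_mul hD0.le]
        _ ≤ (z : ℝ) ^ (k + 1) := pow_le_pow_left₀ (by positivity) hzl _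
    exact_mod_cast h1
  obtain ⟨F, hF1, hF2⟩ := hIDL K D hF hfin hdisc z k S x₁ x₂ X hz2 hx1pos hXz
  refine ⟨F, fun B hB => ?_, ?_⟩
  · obtain ⟨h1, h2, I, J, h3, h4, h5⟩ := hF1 B hB
    refine ⟨h1, by rw [← hX]; exact h2, I, J, h3, ?_, ?_⟩
    · have h6 : (Ideal.absNorm I : ℝ) ≤ (S : ℝ) * x₂ := by exact_mod_cast h4
      rw [p5]
      calc (Ideal.absNorm I : ℝ) ≤ (S : ℝ) * x₂ := h6
        _ ≤ E ^ 2 * (q * E ^ 4) := mul_le_mul a5 a3 (Nat.cast_nonneg _) (by positivity)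
        _ = q * E ^ 6 := by ring
    · have h6 : (Ideal.absNorm J : ℝ) * x₁ ≤ X := by exact_mod_cast h5
      rw [p5]
      have h7 : (Ideal.absNorm J : ℝ) * (q * E ^ 2) ≤ (q * E ^ 6) * (q * E ^ 2) := by
        calc (Ideal.absNorm J : ℝ) * (q * E ^ 2) ≤ (Ideal.absNorm J : ℝ) * x₁ :=
              mul_le_mul_of_nonneg_left a1 (Nat.cast_nonneg _)
          _ ≤ X := h6
          _ ≤ q ^ 2 * E ^ 8 := a6
          _ = _ := by ring
      exact le_of_mul_le_mul_right h7 (by positivity)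
  · -- the lower bound for the triple sum
    have hXpos : (0 : ℝ) ≤ X := Nat.cast_nonneg _
    have hXD : X ≤ D := by
      have : (X : ℝ) ≤ D := a6.trans p7
      exact_mod_cast this
    have hrn : ∀ n : ℕ, 1 ≤ n → 0 ≤ rr D n := rr_nonneg D hF
    have hterm : ∀ s ∈ (Finset.Icc 1 S).filter (Smooth z),
        ∀ m ∈ (Finset.Ioc x₁ x₂).filter (Rough z),
        (1 / 4 * (Lone D * VV D z * X)) * (rr D s / s * (rr D m / m)) ≤
          rr D s * rr D m * RN D z (X / (s * m)) := by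
      intro s hs m hm
      have hs1 := Finset.mem_Icc.1 (Finset.mem_filter.1 hs).1
      have hm1 := Finset.mem_Ioc.1 (Finset.mem_filter.1 hm).1
      have hs0 : (1 : ℝ) ≤ s := by exact_mod_cast hs1.1
      have hm1' : 1 ≤ m := by omega
      have hm0 : (1 : ℝ) ≤ m := by exact_mod_cast hm1'
      have hsS : (s : ℝ) ≤ E ^ 2 := (by exact_mod_cast hs1.2 : (s : ℝ) ≤ S).trans a5
      have hmx : (m : ℝ) ≤ q * E ^ 4 := (by exact_mod_cast hm1.2 : (m : ℝ) ≤ x₂).trans a3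
      have hsm : (s : ℝ) * m ≤ q * E ^ 6 := by
        calc (s : ℝ) * m ≤ E ^ 2 * (q * E ^ 4) := mul_le_mul hsS hmx (by linarith) (by positivity)
          _ = q * E ^ 6 := by ring
      have hsm0 : (0 : ℝ) < (s : ℝ) * m := by positivity
      obtain ⟨t, ht⟩ : ∃ t : ℝ, t = (X : ℝ) / ((s : ℝ) * m) := ⟨_, rfl⟩
      have ht1 : 1 / 2 * (q * E ^ 2) ≤ t := by
        rw [ht, le_div_iff₀ hsm0]
        calc 1 / 2 * (q * E ^ 2) * ((s : ℝ) * m) ≤ 1 / 2 * (q * E ^ 2) * (q * E ^ 6) :=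
              mul_le_mul_of_nonneg_left hsm (by positivity)
          _ = 1 / 2 * (q ^ 2 * E ^ 8) := by ring
          _ ≤ X := by linarith
      have hY : t < ((X / (s * m) : ℕ) : ℝ) + 1 := by
        rw [ht]
        have h1 := Nat.lt_floor_add_one ((X : ℝ) / ((s * m : ℕ) : ℝ))
        rw [Nat.floor_div_eq_div] at h1
        push_cast at h1
        exact h1
      have hY2 : (D : ℝ) ^ (1 / 4 + η / 2) ≤ ((X / (s * m) : ℕ) : ℝ) := by
        rw [p2]
        have h2 : 17 * (q * E) ≤ q * E ^ 2 := by nlinarith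
        have h3 : 1 ≤ q * E := by nlinarith
        linarith
      have hYD : X / (s * m) ≤ D := (Nat.div_le_self _ _).trans hXD
      have hlow := (hR _ hY2 hYD).1
      have hY3 : 1 / 2 * t ≤ ((X / (s * m) : ℕ) : ℝ) := by linarith
      have h5 : 1 / 4 * (Lone D * VV D z * t) ≤ RN D z (X / (s * m)) := by
        refine le_trans ?_ hlow
        have h6 : Lone D * VV D z * (1 / 2 * t) ≤ Lone D * VV D z * ((X / (s * m) : ℕ) : ℝ) :=
          mul_le_mul_of_nonneg_left hY3 (by positivity)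
        linarith
      have h7 : 0 ≤ rr D s * rr D m := mul_nonneg (hrn s hs1.1) (hrn m hm1')
      calc (1 / 4 * (Lone D * VV D z * X)) * (rr D s / s * (rr D m / m))
          = rr D s * rr D m * (1 / 4 * (Lone D * VV D z * t)) := by
            rw [ht]
            field_simp
        _ ≤ _ := mul_le_mul_of_nonneg_left h5 h7
    have hsum : (1 / 4 * (Lone D * VV D z * X)) *
        ((∑ s ∈ (Finset.Icc 1 S).filter (Smooth z), rr D s / s) *
          ∑ m ∈ (Finset.Ioc x₁ x₂).filter (Rough z), rr D m / m) ≤ 2 ^ k * (F.card : ℝ) := by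
      refine le_trans ?_ hF2
      rw [Finset.sum_mul_sum, Finset.mul_sum]
      refine Finset.sum_le_sum fun s hs => ?_
      rw [Finset.mul_sum]
      exact Finset.sum_le_sum fun m hm => hterm s hs m hm
    obtain ⟨Gs, hGs⟩ : ∃ a : ℝ, a = ∑ s ∈ (Finset.Icc 1 S).filter (Smooth z), rr D s / s := ⟨_, rfl⟩
    obtain ⟨Gm, hGm⟩ : ∃ a : ℝ, a = ∑ m ∈ (Finset.Ioc x₁ x₂).filter (Rough z), rr D m / m := ⟨_, rfl⟩
    have hs := hSMO D hF z S hz2 hzA
    rw [← hGs] at hs hsum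
    rw [← hGm] at hsum
    -- the rough part
    have hm : (Lone D * VV D z) * Real.log ((x₂ : ℝ) / x₁) / 16 ≤ Gm := by
      have h1 := hBLK (fun n => if Rough z n ∧ 1 ≤ n then rr D n else 0) (Lone D * VV D z) x₁ x₂
        (fun n => by
          show 0 ≤ if Rough z n ∧ 1 ≤ n then rr D n else 0
          split_ifs with h
          · exact hrn n h.2
          · exact le_rfl) (by positivity) hx1pos h8 (fun x hxl hxu => by
          have e1 : ∑ n ∈ Finset.Icc 1 x, (if Rough z n ∧ 1 ≤ n then rr D n else 0) = RN D z x := by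
            unfold RN
            rw [Finset.sum_filter]
            refine Finset.sum_congr rfl fun n hn => ?_
            have hn1 := (Finset.mem_Icc.1 hn).1
            by_cases h : Rough z n
            · rw [if_pos ⟨h, hn1⟩, if_pos h]
            · rw [if_neg (fun h' => h h'.1), if_neg h]
          rw [e1]
          refine hR x ?_ ?_
          · rw [p2]
            have h2 : 17 * (q * E) ≤ q * E ^ 2 := by nlinarith
            have h3 : (x₁ : ℝ) ≤ x := by exact_mod_cast hxl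
            have h4 : 0 < q * E := by positivity
            linarith
          · have h3 : (x : ℝ) ≤ D := by
              have h4 : (x : ℝ) ≤ x₂ := by exact_mod_cast hxu
              have h5 : q * E ^ 4 ≤ q ^ 2 * E ^ 8 := by
                have h6 : (1 : ℝ) ≤ q * E ^ 4 := by nlinarith
                calc q * E ^ 4 = (q * E ^ 4) * 1 := (mul_one _).symm
                  _ ≤ (q * E ^ 4) * (q * E ^ 4) := mul_le_mul_of_nonneg_left h6 (by positivity)
                  _ = _ := by ring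
              linarith
            exact_mod_cast h3)
      refine h1.trans (le_of_eq ?_)
      rw [hGm, Finset.sum_filter]
      refine Finset.sum_congr rfl fun n hn => ?_
      have hn1 : 1 ≤ n := by
        have := (Finset.mem_Ioc.1 hn).1
        omega
      by_cases h : Rough z n
      · simp only [h, hn1, and_self, if_true]
      · simp only [h, false_and, if_false, zero_div]
    have hlog : η / 2 * Real.log D ≤ Real.log ((x₂ : ℝ) / x₁) := by
      have h1 : E ≤ (x₂ : ℝ) / x₁ := by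
        rw [le_div_iff₀ (by linarith)]
        have h2 : E * x₁ ≤ E * (q * E ^ 2 + 1) := mul_le_mul_of_nonneg_left a2.le hE0.le
        have h3 : 17 * (q * E ^ 3) ≤ q * E ^ 4 := by
          have : 17 * E ^ 3 ≤ E ^ 4 := by nlinarith [pow_pos hE0 3]
          nlinarith
        have h4 : 1 ≤ q * E ^ 3 := by
          have : (1 : ℝ) ≤ E ^ 3 := one_le_pow₀ (by linarith)
          nlinarith
        have h5 : E ≤ q * E ^ 3 := by
          have h6 : (1 : ℝ) ≤ E ^ 2 := by linarith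
          have h7 : E * 1 ≤ E * E ^ 2 := mul_le_mul_of_nonneg_left h6 hE0.le
          have h8' : E ^ 3 ≤ q * E ^ 3 := le_mul_of_one_le_left (by positivity) hq1
          nlinarith
        nlinarith
      have h2 := Real.log_le_log hE0 h1
      rw [hE, Real.log_rpow hD0] at h2
      exact h2
    have hzD : z ≤ D := by
      have h1 : (z : ℝ) ≤ D := by
        calc (z : ℝ) ≤ (D : ℝ) ^ δ := hzu
          _ ≤ (D : ℝ) ^ (1 : ℝ) := by
              apply Real.rpow_le_rpow_of_exponent_le hDl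
              have h2 : δ ≤ η / (2 * (A + 1)) := by rw [hδ]; exact min_le_right _ _
              have h3 : η / (2 * ((A : ℝ) + 1)) ≤ η := div_le_self hη.le (by linarith)
              linarith
          _ = D := Real.rpow_one _
      exact_mod_cast h1
    have hmer := hMER D hF z hz2 hzD
    have hlogD : 0 ≤ Real.log D := Real.log_nonneg hDl
    -- assembly
    have g1 : cM / PE D D ≤ VV D z * Real.log D := by
      rw [div_le_iff₀ hP]
      exact hmer
    have g2 : Lone D * (η / 2 * (cM / PE D D)) / 16 ≤ Gm := by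
      refine le_trans ?_ hm
      have h1 : VV D z * (η / 2 * Real.log D) ≤ VV D z * Real.log ((x₂ : ℝ) / x₁) :=
        mul_le_mul_of_nonneg_left hlog hV.le
      have h2 : η / 2 * (cM / PE D D) ≤ VV D z * Real.log ((x₂ : ℝ) / x₁) := by
        refine le_trans ?_ h1
        have := mul_le_mul_of_nonneg_left g1 (by positivity : (0 : ℝ) ≤ η / 2)
        linarith
      have h3 := mul_le_mul_of_nonneg_left h2 hL.le
      rw [mul_assoc]
      linarith
    have hcP : 0 < cM / PE D D := by positivity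
    have g3 : 0 ≤ Gm := le_trans (by positivity) g2
    have g4 : 1 / 8 * (Lone D * X) * Gm ≤ (1 / 4 * (Lone D * VV D z * X)) * (Gs * Gm) := by
      have h1 : 0 ≤ 1 / 4 * (Lone D * X) * Gm := by positivity
      have h2 := mul_le_mul_of_nonneg_left hs h1
      calc 1 / 8 * (Lone D * X) * Gm = 1 / 4 * (Lone D * X) * Gm * (1 / 2) := by ring
        _ ≤ 1 / 4 * (Lone D * X) * Gm * (VV D z * Gs) := h2
        _ = _ := by ring
    have g5 : 1 / 2 * (q ^ 2 * E ^ 8) ≤ X := by linarith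
    have g6 : 1 / 8 * (Lone D * (1 / 2 * (q ^ 2 * E ^ 8))) * (Lone D * (η / 2 * (cM / PE D D)) / 16) ≤
        2 ^ k * (F.card : ℝ) := by
      refine le_trans ?_ (g4.trans hsum)
      refine mul_le_mul ?_ g2 (by positivity) (by positivity)
      exact mul_le_mul_of_nonneg_left (mul_le_mul_of_nonneg_left g5 hL.le) (by norm_num)
    rw [p6]
    have h2k : (0 : ℝ) < 2 ^ k := by positivity
    refine le_of_mul_le_mul_left ?_ h2k
    refine le_trans (le_of_eq ?_) g6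
    field_simp
    ring

end Pool.Agent.N910.EX
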